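import Pool.Agent.Y422.TW.Upper
import Pool.Agent.Y684.ZL.Upper

/-!
# Graphs of small twin-width without `K_{s,t}` have few edges
-/

set_option autoImplicit false

namespace Pool.Agent.Y422.TZ

open Finset Pool.Agent.Y422.TW

open Classical

variable {V : Type} [Fintype V]

/-- a vertex of small degree in every set of vertices -/
theorem small_degree (G : SimpleGraph V) (w s t : ℕ) (hs : 1 ≤ s) (h : TwinWidthLE G w)
    (hfree : (completeBipartiteGraph (Fin s) (Fin t)).Free G) (U : Finset V) (hU : U.Nonempty) :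
    ∃ v ∈ U, (U.filter (G.Adj v)).card ≤ t + 2 * s * (w + 1) := by
  by_cases hc : U.card < s
  · obtain ⟨v, hv⟩ := hU
    refine ⟨v, hv, (card_le_card (filter_subset _ _)).trans ?_⟩
    have h1 : 1 * s ≤ (w + 1) * s := Nat.mul_le_mul_right _ (by omega)
    have h2 : 2 * s * (w + 1) = 2 * ((w + 1) * s) := by ring
    omega
  · obtain ⟨A, R, B, hA, hR, hB, hsA, hAR, hAB, hle⟩ :=
      pair_lemma G w h (s : ℝ) (by exact_mod_cast hs) U (by exact_mod_cast not_lt.1 hc)
    have hAs : s ≤ A.card := by exact_mod_cast hsA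
    have hRt : R.card < t := by
      by_contra hcon
      push Not at hcon
      apply hfree
      rw [SimpleGraph.completeBipartiteGraph_isContained_iff]
      obtain ⟨S, hS, hSc⟩ := exists_subset_card_eq hAs
      obtain ⟨T, hT, hTc⟩ := exists_subset_card_eq hcon
      refine ⟨S, T, by rw [hSc, Fintype.card_fin], by rw [hTc, Fintype.card_fin], ?_⟩
      intro v hv w hw
      exact hAR v (hS hv) w (hT hw)
    obtain ⟨a, ha⟩ : A.Nonempty := card_pos.1 (by omega)
    refine ⟨a, hA ha, ?_⟩
    have h1 : (U.filter (G.Adj a)).card + B.card ≤ U.card := by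
      rw [← card_union_of_disjoint]
      · exact card_le_card (union_subset (filter_subset _ _) hB)
      · rw [disjoint_left]
        intro x hx hxB
        exact ((SimpleGraph.compl_adj _ _ _).1 (hAB a ha x hxB)).2 (mem_filter.1 hx).2
    have h3 : ((U.filter (G.Adj a)).card : ℝ) + B.card ≤ U.card := by exact_mod_cast h1
    have h4 : (R.card : ℝ) < t := by exact_mod_cast hRt
    have h5 : ((U.filter (G.Adj a)).card : ℝ) ≤ ((t + 2 * s * (w + 1) : ℕ) : ℝ) := by
      push_cast
      linarith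
    exact_mod_cast h5

theorem edges_le (G : SimpleGraph V) (D : ℕ)
    (h : ∀ U : Finset V, U.Nonempty → ∃ v ∈ U, (U.filter (G.Adj v)).card ≤ D) :
    ∀ (n : ℕ) (U : Finset V), U.card = n →
      (G.edgeFinset.filter (fun e => ∀ v ∈ e, v ∈ U)).card ≤ D * n := by
  intro n
  induction n with
  | zero =>
    intro U hU
    have hU0 : U = ∅ := card_eq_zero.1 hU
    subst hU0
    have : (G.edgeFinset.filter (fun e => ∀ v ∈ e, v ∈ (∅ : Finset V))) = ∅ := by
      rw [filter_eq_empty_iff]
      intro e _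
      induction e using Sym2.ind with
      | _ x y =>
        intro hxy
        exact absurd (hxy x (Sym2.mem_mk_left x y)) (notMem_empty x)
    rw [this]
    simp
  | succ n ih =>
    intro U hU
    obtain ⟨v, hv, hd⟩ := h U (card_pos.1 (by omega))
    have hsub : (G.edgeFinset.filter (fun e => ∀ v ∈ e, v ∈ U)) ⊆
        (G.edgeFinset.filter (fun e => ∀ x ∈ e, x ∈ U.erase v)) ∪
          (U.filter (G.Adj v)).image (fun u => s(v, u)) := by
      intro e he
      obtain ⟨he1, he2⟩ := mem_filter.1 he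
      by_cases hve : v ∈ e
      · obtain ⟨u, rfl⟩ := Sym2.mem_iff_exists.1 hve
        refine mem_union_right _ (mem_image.2 ⟨u, mem_filter.2
          ⟨he2 u (Sym2.mem_mk_right _ _), ?_⟩, rfl⟩)
        exact SimpleGraph.mem_edgeFinset.1 he1
      · refine mem_union_left _ (mem_filter.2 ⟨he1, fun x hx => mem_erase.2 ⟨?_, he2 x hx⟩⟩)
        rintro rfl
        exact hve hx
    calc _ ≤ _ := card_le_card hsub
      _ ≤ (G.edgeFinset.filter (fun e => ∀ x ∈ e, x ∈ U.erase v)).card +
          ((U.filter (G.Adj v)).image (fun u => s(v, u))).card := card_union_le _ _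
      _ ≤ D * n + D := add_le_add (ih _ (by rw [card_erase_of_mem hv, hU]; rfl))
          (card_image_le.trans hd)
      _ = D * (n + 1) := by ring

theorem card_edgeSet (G : SimpleGraph V) : Nat.card G.edgeSet = G.edgeFinset.card := by
  rw [Nat.card_eq_fintype_card, SimpleGraph.edgeFinset_card]

/-- **Upper bound.** -/
theorem tww_edges (G : SimpleGraph V) (w s t : ℕ) (hs : 1 ≤ s) (h : TwinWidthLE G w)
    (hfree : (completeBipartiteGraph (Fin s) (Fin t)).Free G) :
    Nat.card G.edgeSet ≤ (t + 2 * s * (w + 1)) * Fintype.card V := by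
  have h1 := edges_le G _ (small_degree G w s t hs h hfree) (Fintype.card V) univ card_univ
  have h2 : (G.edgeFinset.filter (fun e => ∀ v ∈ e, v ∈ (univ : Finset V))) = G.edgeFinset := by
    rw [filter_eq_self]
    intro e _ v _
    exact mem_univ v
  rw [h2] at h1
  rw [card_edgeSet]
  exact h1

/-- the bound of Kővári, Sós and Turán for the number of edges -/
theorem kst_edges (G : SimpleGraph V) (s t n : ℕ) (hs : 1 ≤ s) (ht : 1 ≤ t) (hn : 1 ≤ n)
    (hV : Fintype.card V ≤ n)
    (hfree : (completeBipartiteGraph (Fin s) (Fin t)).Free G) :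
    (Nat.card G.edgeSet : ℝ) ≤ 4 * s * t * (n * (n : ℝ) ^ (1 - 1 / (s : ℝ))) := by
  have hn0 : (0 : ℝ) < n := by exact_mod_cast hn
  rcases Nat.eq_zero_or_pos (Fintype.card V) with h0 | h0
  · have : G.edgeFinset.card = 0 := by
      rw [card_eq_zero, eq_empty_iff_forall_notMem]
      intro e he
      induction e using Sym2.ind with
      | _ x y => exact (Fintype.card_eq_zero_iff.1 h0).elim x
    rw [card_edgeSet, this]
    push_cast
    positivity
  have h1 : (Nat.card G.edgeSet : ℝ) ≤
      (SimpleGraph.extremalNumber (Fintype.card V) (completeBipartiteGraph (Fin s) (Fin t)) : ℝ) := by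
    rw [card_edgeSet]
    have := SimpleGraph.card_edgeFinset_le_extremalNumber (G := G) hfree
    exact_mod_cast this
  refine h1.trans ((Pool.Agent.Y684.ZL.upper s t (Fintype.card V) hs ht h0).trans ?_)
  have hs0 : (1 : ℝ) ≤ s := by exact_mod_cast hs
  have ht0 : (1 : ℝ) ≤ t := by exact_mod_cast ht
  have e1 : (t : ℝ) ^ (1 / (s : ℝ)) ≤ t := by
    calc (t : ℝ) ^ (1 / (s : ℝ)) ≤ (t : ℝ) ^ (1 : ℝ) := by
          apply Real.rpow_le_rpow_of_exponent_le ht0
          rw [div_le_one (by linarith)]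
          exact hs0
      _ = t := Real.rpow_one _
  have e2 : ((Fintype.card V : ℕ) : ℝ) ^ (2 - 1 / (s : ℝ)) ≤ (n : ℝ) ^ (2 - 1 / (s : ℝ)) := by
    apply Real.rpow_le_rpow (Nat.cast_nonneg _) (by exact_mod_cast hV)
    have : 1 / (s : ℝ) ≤ 1 := by
      rw [div_le_one (by linarith)]
      exact hs0
    linarith
  have e3 : (n : ℝ) ^ (2 - 1 / (s : ℝ)) = n * (n : ℝ) ^ (1 - 1 / (s : ℝ)) := by
    have : (2 - 1 / (s : ℝ)) = 1 + (1 - 1 / (s : ℝ)) := by ring
    rw [this, Real.rpow_add hn0, Real.rpow_one]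
  calc 4 * (s : ℝ) * ((t : ℝ) ^ (1 / (s : ℝ)) * ((Fintype.card V : ℕ) : ℝ) ^ (2 - 1 / (s : ℝ)))
      ≤ 4 * s * (t * (n : ℝ) ^ (2 - 1 / (s : ℝ))) := by
        apply mul_le_mul_of_nonneg_left _ (by positivity)
        exact mul_le_mul e1 e2 (by positivity) (by positivity)
    _ = 4 * s * t * (n * (n : ℝ) ^ (1 - 1 / (s : ℝ))) := by rw [e3]; ring

end Pool.Agent.Y422.TZ
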