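import Pool.Agent.Y422.TZ.Lower
import Pool.Agent.Y422.TZ.Upper

/-!
# The two-parameter Zarankiewicz problem
-/

set_option autoImplicit false

namespace Pool.Agent.Y422.TZ

open Finset Pool.Agent.Y422.TW Pool.Agent.Y684.ZL Pool.Agent.W834.NG

/-- a graph on at most `n` vertices with at least `c n min (w + 1, n ^ (1 - 1 / r))` edges -/
theorem lower_real (r : ℕ) (hr : 2 ≤ r) (n w : ℕ) (hn : 2 ≤ n) :
    ∃ (V : Type) (_ : Fintype V) (G : SimpleGraph V), Fintype.card V ≤ n ∧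
      TwinWidthLE G w ∧ NoK G r ((r - 1).factorial + 1) ∧
      1 / (48 * 4 ^ r) * ((n : ℝ) * min ((w : ℝ) + 1) ((n : ℝ) ^ (1 - 1 / (r : ℝ)))) ≤
        Nat.card G.edgeSet := by
  classical
  obtain ⟨m, rfl⟩ : ∃ m, r = m + 1 := ⟨r - 1, by omega⟩
  have hm : 1 ≤ m := by omega
  rw [Nat.add_sub_cancel]
  have hn1 : (1 : ℝ) ≤ n := by exact_mod_cast (by omega : 1 ≤ n)
  have hn0 : (0 : ℝ) < n := by linarith
  set P : ℕ → Prop := fun l => 2 ≤ l ∧ 6 * 2 ^ (m * l) ≤ w ∧ 2 ^ ((m + 1) * l) ≤ n with hP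
  -- the minimum is small if `P` fails
  have hmin : ∀ l, ¬ (6 * 2 ^ (m * l) ≤ w ∧ 2 ^ ((m + 1) * l) ≤ n) →
      min ((w : ℝ) + 1) ((n : ℝ) ^ (1 - 1 / ((m + 1 : ℕ) : ℝ))) ≤ 6 * 2 ^ (m * l) := by
    intro l hl
    by_cases h1 : 6 * 2 ^ (m * l) ≤ w
    · have h2 : n < 2 ^ ((m + 1) * l) := by
        by_contra hcon
        exact hl ⟨h1, not_lt.1 hcon⟩
      refine (min_le_right _ _).trans ?_
      have h3 : (n : ℝ) ≤ ((2 : ℝ) ^ l) ^ (((m + 1 : ℕ)) : ℝ) := by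
        rw [Real.rpow_natCast, ← pow_mul, mul_comm l]
        exact_mod_cast h2.le
      have h4 : (0 : ℝ) ≤ 1 - 1 / ((m + 1 : ℕ) : ℝ) := by
        have : (1 : ℝ) / ((m + 1 : ℕ) : ℝ) ≤ 1 := by
          rw [div_le_one (by positivity)]
          push_cast
          have : (0 : ℝ) ≤ m := Nat.cast_nonneg _
          linarith
        linarith
      have h5 : (n : ℝ) ^ (1 - 1 / ((m + 1 : ℕ) : ℝ)) ≤
          (((2 : ℝ) ^ l) ^ (((m + 1 : ℕ)) : ℝ)) ^ (1 - 1 / ((m + 1 : ℕ) : ℝ)) :=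
        Real.rpow_le_rpow hn0.le h3 h4
      have h6 : (((2 : ℝ) ^ l) ^ (((m + 1 : ℕ)) : ℝ)) ^ (1 - 1 / ((m + 1 : ℕ) : ℝ)) =
          2 ^ (m * l) := by
        rw [← Real.rpow_mul (by positivity)]
        have e : (((m + 1 : ℕ)) : ℝ) * (1 - 1 / ((m + 1 : ℕ) : ℝ)) = ((m : ℕ) : ℝ) := by
          have : ((m + 1 : ℕ) : ℝ) ≠ 0 := by positivity
          field_simp
          push_cast
          ring
        rw [e, Real.rpow_natCast, ← pow_mul, mul_comm l]
      rw [h6] at h5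
      have h7 : (0 : ℝ) ≤ 2 ^ (m * l) := by positivity
      linarith
    · refine (min_le_left _ _).trans ?_
      have : w + 1 ≤ 6 * 2 ^ (m * l) := by omega
      exact_mod_cast this
  have hminpos : (0 : ℝ) ≤ min ((w : ℝ) + 1) ((n : ℝ) ^ (1 - 1 / ((m + 1 : ℕ) : ℝ))) :=
    le_min (by positivity) (by positivity)
  have h4pos : (0 : ℝ) < 4 ^ (m + 1) := by positivity
  by_cases h2 : P 2
  · -- copies of norm graphs
    set l := Nat.findGreatest P n with hl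
    have h2n : 2 ≤ n := hn
    have hPl : P l := Nat.findGreatest_spec h2n h2
    obtain ⟨hl2, hlw, hln⟩ := hPl
    have hnP : ¬ (6 * 2 ^ (m * (l + 1)) ≤ w ∧ 2 ^ ((m + 1) * (l + 1)) ≤ n) := by
      rintro ⟨ha, hb⟩
      have hle : l + 1 ≤ n := by
        have h1 : l + 1 ≤ (m + 1) * (l + 1) := Nat.le_mul_of_pos_left _ (by omega)
        have h3 : (m + 1) * (l + 1) < 2 ^ ((m + 1) * (l + 1)) := Nat.lt_two_pow_self
        omega
      exact Nat.findGreatest_is_greatest (P := P) (n := n) (k := l + 1) (Nat.lt_succ_self _) hle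
        ⟨by omega, ha, hb⟩
    have hsize : 2 ^ (m * l) * (2 ^ l - 1) ≤ n := by
      refine le_trans ?_ hln
      calc 2 ^ (m * l) * (2 ^ l - 1) ≤ 2 ^ (m * l) * 2 ^ l :=
            Nat.mul_le_mul_left _ (Nat.sub_le _ _)
        _ = 2 ^ ((m + 1) * l) := by rw [← pow_add]; congr 1; ring
    obtain ⟨V, hV, G, h1, h3, h4, h5⟩ := lower_graph m l n hm (by omega) hsize
    refine ⟨V, hV, G, h1, twinWidth_mono G hlw h3, h4, ?_⟩
    obtain ⟨X, hX⟩ : ∃ X, X = 2 ^ (m * l) := ⟨_, rfl⟩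
    have hX4 : 4 ≤ X := by
      rw [hX]
      calc 4 = 2 ^ 2 := by norm_num
        _ ≤ 2 ^ (m * l) := Nat.pow_le_pow_right (by norm_num) (by
            calc 2 ≤ l := hl2
              _ ≤ m * l := Nat.le_mul_of_pos_left _ hm)
    have h6 := hmin (l + 1) hnP
    have e1 : (6 : ℝ) * 2 ^ (m * (l + 1)) = 6 * 2 ^ m * X := by
      rw [hX, Nat.mul_succ, pow_add]
      push_cast
      ring
    rw [e1] at h6
    rw [← hX] at h5
    have h7 : X * n ≤ 8 * Nat.card G.edgeSet := by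
      have a1 : X * n ≤ 2 * ((X - 2) * n) := by
        rw [← mul_assoc]
        exact Nat.mul_le_mul_right _ (by omega)
      omega
    have h7' : (X : ℝ) * n ≤ 8 * Nat.card G.edgeSet := by exact_mod_cast h7
    have h8 : (n : ℝ) * min ((w : ℝ) + 1) ((n : ℝ) ^ (1 - 1 / ((m + 1 : ℕ) : ℝ))) ≤
        n * (6 * 2 ^ m * X) := mul_le_mul_of_nonneg_left h6 hn0.le
    have h9 : (2 : ℝ) ^ m ≤ 4 ^ (m + 1) := by
      calc (2 : ℝ) ^ m ≤ 4 ^ m := pow_le_pow_left₀ (by norm_num) (by norm_num) m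
        _ ≤ 4 ^ (m + 1) := pow_le_pow_right₀ (by norm_num) (by omega)
    have h10 : (n : ℝ) * (6 * 2 ^ m * X) ≤ 48 * 4 ^ (m + 1) * Nat.card G.edgeSet := by
      have b1 : (n : ℝ) * (6 * 2 ^ m * X) = 6 * 2 ^ m * (X * n) := by ring
      have b2 : (6 : ℝ) * 2 ^ m * (X * n) ≤ 6 * 2 ^ m * (8 * Nat.card G.edgeSet) :=
        mul_le_mul_of_nonneg_left h7' (by positivity)
      have b3 : (6 : ℝ) * 2 ^ m * (8 * Nat.card G.edgeSet) = 48 * 2 ^ m * Nat.card G.edgeSet := by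
        ring
      have b4 : (48 : ℝ) * 2 ^ m * Nat.card G.edgeSet ≤ 48 * 4 ^ (m + 1) * Nat.card G.edgeSet := by
        apply mul_le_mul_of_nonneg_right _ (Nat.cast_nonneg _)
        linarith
      linarith
    rw [one_div, inv_mul_le_iff₀ (by positivity)]
    exact h8.trans h10
  · -- disjoint edges
    obtain ⟨V, hV, G, h1, h3, h4, h5⟩ := matching n hn
    refine ⟨V, hV, G, h1, twinWidth_mono G (Nat.zero_le _) h3, ?_, ?_⟩
    · rintro ⟨x, y, hx, hy, hadj⟩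
      refine h4 ⟨fun i => x (Fin.castLE (by omega) i),
        fun i => y (Fin.castLE (by have := Nat.factorial_pos m; omega) i),
        fun a b hab => Fin.castLE_injective _ (hx hab),
        fun a b hab => Fin.castLE_injective _ (hy hab), fun i j => hadj _ _⟩
    · have h6 := hmin 2 (fun h => h2 ⟨le_rfl, h.1, h.2⟩)
      have h7 : (n : ℝ) ≤ 4 * Nat.card G.edgeSet := by exact_mod_cast h5
      have h8 : (n : ℝ) * min ((w : ℝ) + 1) ((n : ℝ) ^ (1 - 1 / ((m + 1 : ℕ) : ℝ))) ≤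
          n * (6 * 2 ^ (m * 2)) := mul_le_mul_of_nonneg_left h6 hn0.le
      have h9 : (2 : ℝ) ^ (m * 2) ≤ 4 ^ (m + 1) := by
        rw [mul_comm, pow_mul]
        norm_num
        exact pow_le_pow_right₀ (by norm_num) (by omega)
      have h10 : (n : ℝ) * (6 * 2 ^ (m * 2)) ≤ 48 * 4 ^ (m + 1) * Nat.card G.edgeSet := by
        have b1 : (n : ℝ) * (6 * 2 ^ (m * 2)) ≤ (4 * Nat.card G.edgeSet) * (6 * 4 ^ (m + 1)) :=
          mul_le_mul h7 (by linarith) (by positivity) (by positivity)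
        have b2 : (4 * (Nat.card G.edgeSet : ℝ)) * (6 * 4 ^ (m + 1)) =
            24 * 4 ^ (m + 1) * Nat.card G.edgeSet := by ring
        have b3 : (24 : ℝ) * 4 ^ (m + 1) * Nat.card G.edgeSet ≤
            48 * 4 ^ (m + 1) * Nat.card G.edgeSet := by
          apply mul_le_mul_of_nonneg_right _ (Nat.cast_nonneg _)
          linarith
        linarith
      rw [one_div, inv_mul_le_iff₀ (by positivity)]
      exact h8.trans h10

/-- the upper bound -/
theorem upper_real {V : Type} [Fintype V] (G : SimpleGraph V) (s t w n : ℕ) (hs : 1 ≤ s)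
    (ht : 1 ≤ t) (hn : 1 ≤ n) (hV : Fintype.card V ≤ n) (hw : TwinWidthLE G w)
    (hfree : (completeBipartiteGraph (Fin s) (Fin t)).Free G) :
    (Nat.card G.edgeSet : ℝ) ≤
      (t + 2 * s + 4 * s * t) * ((n : ℝ) * min ((w : ℝ) + 1) ((n : ℝ) ^ (1 - 1 / (s : ℝ)))) := by
  have h1 := tww_edges G w s t hs hw hfree
  have h2 := kst_edges G s t n hs ht hn hV hfree
  have hn0 : (0 : ℝ) < n := by exact_mod_cast hn
  have hs0 : (0 : ℝ) ≤ s := Nat.cast_nonneg _
  have ht0 : (0 : ℝ) ≤ t := Nat.cast_nonneg _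
  have hw0 : (0 : ℝ) ≤ w := Nat.cast_nonneg _
  have hy : (0 : ℝ) ≤ (n : ℝ) ^ (1 - 1 / (s : ℝ)) := by positivity
  rcases min_cases ((w : ℝ) + 1) ((n : ℝ) ^ (1 - 1 / (s : ℝ))) with ⟨h, -⟩ | ⟨h, -⟩
  · rw [h]
    have h3 : (Nat.card G.edgeSet : ℝ) ≤ (t + 2 * s * (w + 1)) * Fintype.card V := by
      exact_mod_cast h1
    have h4 : ((Fintype.card V : ℕ) : ℝ) ≤ n := by exact_mod_cast hV
    calc (Nat.card G.edgeSet : ℝ) ≤ (t + 2 * s * (w + 1)) * Fintype.card V := h3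
      _ ≤ (t + 2 * s * (w + 1)) * n := mul_le_mul_of_nonneg_left h4 (by positivity)
      _ ≤ (t * (w + 1) + 2 * s * (w + 1) + 4 * s * t * (w + 1)) * n := by
          apply mul_le_mul_of_nonneg_right _ hn0.le
          have a1 : (0 : ℝ) ≤ t * w := mul_nonneg ht0 hw0
          have a2 : (0 : ℝ) ≤ 4 * s * t * (w + 1) := by positivity
          nlinarith
      _ = (t + 2 * s + 4 * s * t) * (n * (w + 1)) := by ring
  · rw [h]
    refine h2.trans ?_
    apply mul_le_mul_of_nonneg_right _ (by positivity)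
    linarith

end Pool.Agent.Y422.TZ
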