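import Pool.Agent.Y422.TW.Upper

/-!
# Coarsening partitions step by step

Partitions are given by labellings of the vertices.
-/

set_option autoImplicit false

namespace Pool.Agent.Y422.TZ

open Finset Pool.Agent.Y422.TW

open Classical

variable {V : Type} [Fintype V]

/-- the class of `v` for the labelling `f` -/
noncomputable def cls {α : Type} (f : V → α) (v : V) : Finset V := univ.filter fun u => f u = f v

/-- the partition given by the labelling `f` -/
noncomputable def parts {α : Type} (f : V → α) : Finset (Finset V) := univ.image (cls f)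

theorem mem_cls {α : Type} {f : V → α} {u v : V} : u ∈ cls f v ↔ f u = f v := by
  simp [cls]

theorem self_mem_cls {α : Type} (f : V → α) (v : V) : v ∈ cls f v := mem_cls.2 rfl

theorem cls_eq {α : Type} {f : V → α} {u v : V} : cls f u = cls f v ↔ f u = f v := by
  constructor
  · intro h
    exact mem_cls.1 (h ▸ self_mem_cls f u)
  · intro h
    ext x
    rw [mem_cls, mem_cls, h]

/-- few parts are not homogeneous to a given one -/
def GoodL {α : Type} (G : SimpleGraph V) (t : ℕ) (f : V → α) : Prop :=
  ∀ A ∈ parts f, ((parts f).filter (fun B => B ≠ A ∧ ¬ Homog G A B)).card ≤ t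

theorem parts_merge {α : Type} (f : V → α) (u v : V) (huv : f u ≠ f v) :
    parts (fun x => if f x = f u then f v else f x) =
      insert (cls f u ∪ cls f v) (((parts f).erase (cls f u)).erase (cls f v)) := by
  set f' : V → α := fun x => if f x = f u then f v else f x with hf'
  have h1 : ∀ x, f x = f u → f' x = f v := fun x hx => by simp [hf', hx]
  have h2 : ∀ x, f x ≠ f u → f' x = f x := fun x hx => by simp [hf', hx]
  have h3 : ∀ x, (f x = f u ∨ f x = f v) → cls f' x = cls f u ∪ cls f v := by
    intro x hx
    have hx' : f' x = f v := by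
      rcases hx with hx | hx
      · exact h1 x hx
      · by_cases hc : f x = f u
        · exact h1 x hc
        · rw [h2 x hc, hx]
    ext y
    rw [mem_cls, mem_union, mem_cls, mem_cls, hx']
    by_cases hy : f y = f u
    · rw [h1 y hy]; simp [hy]
    · rw [h2 y hy]; simp [hy]
  have h4 : ∀ x, f x ≠ f u → f x ≠ f v → cls f' x = cls f x := by
    intro x hxu hxv
    ext y
    rw [mem_cls, mem_cls, h2 x hxu]
    by_cases hy : f y = f u
    · rw [h1 y hy, hy]
      exact ⟨fun h => absurd h.symm hxv, fun h => absurd h.symm hxu⟩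
    · rw [h2 y hy]
  ext A
  constructor
  · intro hA
    obtain ⟨x, -, rfl⟩ := mem_image.1 hA
    by_cases hx : f x = f u ∨ f x = f v
    · rw [h3 x hx]; exact mem_insert_self _ _
    · push Not at hx
      rw [h4 x hx.1 hx.2]
      refine mem_insert_of_mem (mem_erase.2 ⟨fun h => hx.2 (cls_eq.1 h), mem_erase.2
        ⟨fun h => hx.1 (cls_eq.1 h), mem_image.2 ⟨x, mem_univ _, rfl⟩⟩⟩)
  · intro hA
    rcases mem_insert.1 hA with rfl | hA
    · exact mem_image.2 ⟨u, mem_univ _, h3 u (Or.inl rfl)⟩
    · obtain ⟨hAv, hA⟩ := mem_erase.1 hA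
      obtain ⟨hAu, hA⟩ := mem_erase.1 hA
      obtain ⟨x, -, rfl⟩ := mem_image.1 hA
      exact mem_image.2 ⟨x, mem_univ _, h4 x (fun h => hAu (cls_eq.2 h)) (fun h => hAv (cls_eq.2 h))⟩

/-- **Coarsening.** If all labellings between `f` and `g` are good then the partition of `f` can be
contracted to the partition of `g`. -/
theorem coarsen {α β : Type} (G : SimpleGraph V) (t : ℕ) (g : V → β) :
    ∀ (n : ℕ) (f : V → α), (univ.image f).card ≤ n → (∀ u v, f u = f v → g u = g v) →
      (∀ f' : V → α, (∀ u v, f u = f v → f' u = f' v) → (∀ u v, f' u = f' v → g u = g v) →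
        GoodL G t f') →
      Relation.ReflTransGen (Contract G t) (parts f) (parts g) := by
  intro n
  induction n with
  | zero =>
    intro f hf _ _
    have h0 : (univ.image f) = ∅ := card_eq_zero.1 (by omega)
    have h1 : (univ : Finset V) = ∅ := image_eq_empty.1 h0
    have : parts f = parts g := by
      unfold parts
      rw [h1, image_empty, image_empty]
    rw [this]
  | succ n ih =>
    intro f hf hfg hgood
    by_cases hc : ∀ u v, g u = g v → f u = f v
    · have : parts f = parts g := by
        unfold parts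
        congr 1
        funext x
        ext y
        rw [mem_cls, mem_cls]
        exact ⟨hfg y x, hc y x⟩
      rw [this]
    · push Not at hc
      obtain ⟨u, v, hguv, hfuv⟩ := hc
      set f' : V → α := fun x => if f x = f u then f v else f x with hf'
      have hff' : ∀ x y, f x = f y → f' x = f' y := fun x y h => by simp [hf', h]
      have hf'g : ∀ x y, f' x = f' y → g x = g y := by
        intro x y h
        simp only [hf'] at h
        by_cases hx : f x = f u <;> by_cases hy : f y = f u
        · exact (hfg _ _ hx).trans (hfg _ _ hy).symm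
        · rw [if_pos hx, if_neg hy] at h
          exact (hfg _ _ hx).trans (hguv.trans (hfg _ _ h))
        · rw [if_neg hx, if_pos hy] at h
          exact (hfg _ _ h).trans (hguv.symm.trans (hfg _ _ hy).symm)
        · rw [if_neg hx, if_neg hy] at h
          exact hfg _ _ h
      have hcard : (univ.image f').card ≤ n := by
        have hsub : univ.image f' ⊆ (univ.image f).erase (f u) := by
          intro a ha
          obtain ⟨x, -, rfl⟩ := mem_image.1 ha
          by_cases hx : f x = f u
          · have : f' x = f v := by simp [hf', hx]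
            rw [this]
            exact mem_erase.2 ⟨fun h => hfuv h.symm, mem_image.2 ⟨v, mem_univ _, rfl⟩⟩
          · have : f' x = f x := by simp [hf', hx]
            rw [this]
            exact mem_erase.2 ⟨hx, mem_image.2 ⟨x, mem_univ _, rfl⟩⟩
        have h1 := card_le_card hsub
        rw [card_erase_of_mem (mem_image.2 ⟨u, mem_univ _, rfl⟩)] at h1
        omega
      refine Relation.ReflTransGen.head ?_ (ih f' hcard hf'g
        (fun f'' h1 h2 => hgood f'' (fun x y h => h1 x y (hff' x y h)) h2))
      refine ⟨⟨cls f u, mem_image.2 ⟨u, mem_univ _, rfl⟩, cls f v, mem_image.2 ⟨v, mem_univ _, rfl⟩,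
        fun h => hfuv (cls_eq.1 h), parts_merge f u v hfuv⟩, ?_⟩
      intro A hA
      convert hgood f' hff' hf'g A hA using 2

/-- the criterion used: every class of `g` sends edges to at most `t` classes of `f` -/
theorem coarsen_touch {α β : Type} (G : SimpleGraph V) (t : ℕ) (f : V → α) (g : V → β)
    (hfg : ∀ u v, f u = f v → g u = g v)
    (ht : ∀ c : V, ∃ S : Finset α, S.card ≤ t ∧ ∀ y x, g y = g c → G.Adj y x → f x ∈ S) :
    Relation.ReflTransGen (Contract G t) (parts f) (parts g) := by
  refine coarsen G t g _ f le_rfl hfg ?_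
  intro f' h1 h2 A hA
  obtain ⟨c, -, rfl⟩ := mem_image.1 hA
  obtain ⟨S, hS, hSm⟩ := ht c
  refine le_trans ?_ hS
  -- the classes of `f'` are determined by the labels of `f`
  refine card_le_card_of_surjOn (fun a => if h : ∃ x, f x = a then cls f' h.choose else ∅) ?_
  intro B hB
  obtain ⟨hB, -, hh⟩ := mem_filter.1 (mem_coe.1 hB)
  obtain ⟨b, -, rfl⟩ := mem_image.1 hB
  have : ¬ ∀ y ∈ cls f' c, ∀ x ∈ cls f' b, ¬ G.Adj y x := fun h => hh (Or.inr h)
  push Not at this
  obtain ⟨y, hy, x, hx, hyx⟩ := this
  refine ⟨f x, mem_coe.2 (hSm y x (h2 _ _ (mem_cls.1 hy)) hyx), ?_⟩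
  have h : ∃ z, f z = f x := ⟨x, rfl⟩
  show (if h : ∃ z, f z = f x then cls f' h.choose else ∅) = cls f' b
  rw [dif_pos h]
  exact cls_eq.2 ((h1 _ _ h.choose_spec).trans (mem_cls.1 hx))

/-- the criterion if different classes are always homogeneous -/
theorem coarsen_homog {α β : Type} (G : SimpleGraph V) (t : ℕ) (f : V → α) (g : V → β)
    (hfg : ∀ u v, f u = f v → g u = g v)
    (hh : ∀ f' : V → α, (∀ u v, f u = f v → f' u = f' v) → (∀ u v, f' u = f' v → g u = g v) →
      ∀ c b, f' c ≠ f' b → Homog G (cls f' c) (cls f' b)) :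
    Relation.ReflTransGen (Contract G t) (parts f) (parts g) := by
  refine coarsen G t g _ f le_rfl hfg ?_
  intro f' h1 h2 A hA
  obtain ⟨c, -, rfl⟩ := mem_image.1 hA
  have : ((parts f').filter (fun B => B ≠ cls f' c ∧ ¬ Homog G (cls f' c) B)) = ∅ := by
    rw [filter_eq_empty_iff]
    rintro B hB ⟨hne, hhom⟩
    obtain ⟨b, -, rfl⟩ := mem_image.1 hB
    exact hhom (hh f' h1 h2 c b (fun h => hne (cls_eq.2 h.symm)))
  rw [this]
  simp

/-- the criterion if the classes of `f` send no edges to one another -/
theorem coarsen_free {α β : Type} (G : SimpleGraph V) (t : ℕ) (f : V → α) (g : V → β)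
    (hfg : ∀ u v, f u = f v → g u = g v) (hf : ∀ u v, G.Adj u v → f u = f v) :
    Relation.ReflTransGen (Contract G t) (parts f) (parts g) := by
  refine coarsen G t g _ f le_rfl hfg ?_
  intro f' h1 _ A hA
  obtain ⟨c, -, rfl⟩ := mem_image.1 hA
  have : ((parts f').filter (fun B => B ≠ cls f' c ∧ ¬ Homog G (cls f' c) B)) = ∅ := by
    rw [filter_eq_empty_iff]
    rintro B hB ⟨hne, hh⟩
    obtain ⟨b, -, rfl⟩ := mem_image.1 hB
    apply hh
    right
    intro y hy x hx hyx
    apply hne
    apply cls_eq.2
    rw [← mem_cls.1 hx, ← mem_cls.1 hy]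
    exact (h1 _ _ (hf _ _ hyx)).symm
  rw [this]
  simp

theorem parts_id {α : Type} (f : V → α) (hf : Function.Injective f) :
    parts f = univ.image (fun v : V => ({v} : Finset V)) := by
  unfold parts
  congr 1
  funext v
  ext x
  rw [mem_cls, mem_singleton]
  exact ⟨fun h => hf h, fun h => h ▸ rfl⟩

theorem parts_const [Nonempty V] {α : Type} (a : α) : parts (fun _ : V => a) = {univ} := by
  ext A
  rw [mem_singleton]
  constructor
  · intro hA
    obtain ⟨x, -, rfl⟩ := mem_image.1 hA
    ext y
    simp [mem_cls]
  · rintro rfl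
    obtain ⟨v⟩ := ‹Nonempty V›
    exact mem_image.2 ⟨v, mem_univ _, by ext y; simp [mem_cls]⟩

theorem twinWidthLE_of [Nonempty V] {α : Type} (G : SimpleGraph V) (t : ℕ) (f : V → α)
    (hf : Function.Injective f)
    (h : Relation.ReflTransGen (Contract G t) (parts f) (parts (fun _ : V => ()))) :
    TwinWidthLE G t := by
  unfold TwinWidthLE
  rw [← parts_id f hf, ← parts_const (V := V) ()]
  exact h

end Pool.Agent.Y422.TZ
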