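import Pool.Agent.Y422.TZ.Coarsen
import Pool.Agent.Y684.ZL.Fld

/-!
# The twin-width of disjoint copies of norm graphs
-/

set_option autoImplicit false

namespace Pool.Agent.Y422.TZ

open Finset Pool.Agent.Y422.TW Pool.Agent.Y684.ZL Pool.Agent.W834.NG

open Classical

/-- `M` disjoint copies of `H` -/
def copies (M : ℕ) {W : Type} (H : SimpleGraph W) : SimpleGraph (Fin M × W) where
  Adj u v := u.1 = v.1 ∧ H.Adj u.2 v.2
  symm := ⟨fun _ _ h => ⟨h.1.symm, h.2.symm⟩⟩
  loopless := ⟨fun _ h => H.loopless.irrefl _ h.2⟩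

theorem copies_noK {M : ℕ} {W : Type} {H : SimpleGraph W} {s r : ℕ} (hs : 0 < s) (hr : 0 < r)
    (h : NoK H s r) : NoK (copies M H) s r := by
  rintro ⟨x, y, hx, hy, hadj⟩
  apply h
  have h1 : ∀ i, (x i).1 = (y ⟨0, hr⟩).1 := fun i => (hadj i ⟨0, hr⟩).1
  have h2 : ∀ j, (y j).1 = (x ⟨0, hs⟩).1 := fun j => (hadj ⟨0, hs⟩ j).1.symm
  refine ⟨fun i => (x i).2, fun j => (y j).2, ?_, ?_, fun i j => (hadj i j).2⟩
  · intro a b hab
    exact hx (Prod.ext ((h1 a).trans (h1 b).symm) hab)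
  · intro a b hab
    exact hy (Prod.ext ((h2 a).trans (h2 b).symm) hab)

theorem noK_mono {V : Type} {G : SimpleGraph V} {s s' r : ℕ} (hs : s ≤ s') (h : NoK G s r) :
    NoK G s' r := by
  rintro ⟨x, y, hx, hy, hadj⟩
  exact h ⟨fun i => x (Fin.castLE hs i), y, fun a b hab => Fin.castLE_injective hs (hx hab), hy,
    fun i j => hadj _ j⟩

/-- the exponents at which a power of `g` takes a given value -/
theorem two_vals {K : Type} [Field K] (g : K) (B : ℕ)
    (hg : ∀ u v : ℕ, u < v → v < u + B → g ^ u ≠ g ^ v) :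
    ∃ e : Fin 2 → K → ℕ, ∀ (s : ℕ) (z : K), s < 2 * B → g ^ s = z → ∃ b, s = e b z := by
  refine ⟨fun b z => if b = 0 then (if h : ∃ s, s < B ∧ g ^ s = z then h.choose else 0)
    else (if h : ∃ s, (B ≤ s ∧ s < 2 * B) ∧ g ^ s = z then h.choose else 0), ?_⟩
  intro s z hs hz
  by_cases hsB : s < B
  · refine ⟨0, ?_⟩
    have h : ∃ s, s < B ∧ g ^ s = z := ⟨s, hsB, hz⟩
    simp only [if_true, dif_pos h]
    obtain ⟨h1, h2⟩ := h.choose_spec
    rcases lt_trichotomy s h.choose with hlt | heq | hgt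
    · exact absurd (hz.trans h2.symm) (hg _ _ hlt (by omega))
    · exact heq
    · exact absurd (h2.trans hz.symm) (hg _ _ hgt (by omega))
  · refine ⟨1, ?_⟩
    have h : ∃ s, (B ≤ s ∧ s < 2 * B) ∧ g ^ s = z := ⟨s, ⟨by omega, hs⟩, hz⟩
    have h10 : ¬ ((1 : Fin 2) = 0) := by decide
    simp only [if_neg h10, dif_pos h]
    obtain ⟨⟨h1, h1'⟩, h2⟩ := h.choose_spec
    rcases lt_trichotomy s h.choose with hlt | heq | hgt
    · exact absurd (hz.trans h2.symm) (hg _ _ hlt (by omega))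
    · exact heq
    · exact absurd (h2.trans hz.symm) (hg _ _ hgt (by omega))

section

variable {K : Type} [Field K] [Fintype K] (φ : K →+* K) (m : ℕ) (g : K) (B M : ℕ)

/-- the labelling with blocks of `2 ^ r` consecutive exponents -/
def lab (r : ℕ) (v : Fin M × (K × Fin B)) : Fin M × K × ℕ := (v.1, v.2.1, (v.2.2 : ℕ) / 2 ^ r)

theorem block (j i' L : ℕ) (hL : 0 < L) (hi : i' < 2 * L) :
    ∃ d : Fin 3, j / L = (j + i') / L - d := by
  have h1 : j / L ≤ (j + i') / L := Nat.div_le_div_right (by omega)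
  have h2 : (j + i') / L ≤ j / L + 2 := by
    have : (j + i') / L ≤ (j + 2 * L) / L := Nat.div_le_div_right (by omega)
    rwa [Nat.add_mul_div_right _ _ hL] at this
  obtain ⟨x, hx⟩ : ∃ x, x = j / L := ⟨_, rfl⟩
  obtain ⟨y, hy⟩ : ∃ y, y = (j + i') / L := ⟨_, rfl⟩
  rw [← hx, ← hy] at h1 h2
  rw [← hx, ← hy]
  exact ⟨⟨y - x, by omega⟩, by
    show x = y - (y - x)
    omega⟩

theorem step (hg : ∀ u v : ℕ, u < v → v < u + B → g ^ u ≠ g ^ v) (r : ℕ) :
    Relation.ReflTransGen (Contract (copies M (WG φ m g 1 B)) (6 * Fintype.card K))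
      (parts (lab (K := K) B M r)) (parts (lab (K := K) B M (r + 1))) := by
  obtain ⟨e, he⟩ := two_vals g B hg
  refine coarsen_touch _ _ _ _ ?_ ?_
  · intro u v h
    unfold lab at h ⊢
    rw [Prod.mk.injEq, Prod.mk.injEq] at h ⊢
    refine ⟨h.1, h.2.1, ?_⟩
    rw [pow_succ, ← Nat.div_div_eq_div_mul, ← Nat.div_div_eq_div_mul, h.2.2]
  · intro c
    refine ⟨(univ : Finset (K × Fin 2 × Fin 3)).image (fun p =>
          (c.1, p.1, (e p.2.1 (Nm φ m (c.2.1 + p.1)) - 2 ^ (r + 1) * ((c.2.2 : ℕ) / 2 ^ (r + 1)))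
            / 2 ^ r - (p.2.2 : ℕ))), ?_, ?_⟩
    · refine card_image_le.trans ?_
      rw [card_univ, Fintype.card_prod, Fintype.card_prod, Fintype.card_fin, Fintype.card_fin]
      exact le_of_eq (by ring)
    · rintro y v hy hadj
      unfold lab at hy
      rw [Prod.mk.injEq, Prod.mk.injEq] at hy
      obtain ⟨hy1, hy2, hy3⟩ := hy
      obtain ⟨hc, -, e0, he0, hN⟩ := hadj
      have he00 : e0 = 0 := by omega
      subst he00
      rw [add_zero, one_mul] at hN
      have hlt : (y.2.2 : ℕ) + v.2.2 < 2 * B := by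
        have h1 := y.2.2.2
        have h2 := v.2.2.2
        omega
      obtain ⟨b, hb⟩ := he _ _ hlt hN.symm
      obtain ⟨a, ha⟩ : ∃ a, a = (c.2.2 : ℕ) / 2 ^ (r + 1) := ⟨_, rfl⟩
      obtain ⟨i, hi⟩ : ∃ i : ℕ, i = (y.2.2 : ℕ) := ⟨_, rfl⟩
      obtain ⟨j, hj⟩ : ∃ j : ℕ, j = (v.2.2 : ℕ) := ⟨_, rfl⟩
      rw [← ha, ← hi] at hy3
      have hdecomp : i = 2 ^ (r + 1) * a + i % 2 ^ (r + 1) := by
        rw [← hy3]
        exact (Nat.div_add_mod _ _).symm
      have hmod : i % 2 ^ (r + 1) < 2 * 2 ^ r := by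
        have hp : 2 ^ (r + 1) = 2 * 2 ^ r := by rw [pow_succ, mul_comm]
        exact lt_of_lt_of_eq (Nat.mod_lt i (show 0 < 2 ^ (r + 1) by positivity)) hp
      obtain ⟨d, hd⟩ := block j (i % 2 ^ (r + 1)) (2 ^ r) (by positivity) hmod
      refine mem_image.2 ⟨(v.2.1, b, d), mem_univ _, ?_⟩
      unfold lab
      rw [Prod.mk.injEq, Prod.mk.injEq]
      refine ⟨by rw [← hc, hy1], rfl, ?_⟩
      show (e b (Nm φ m (c.2.1 + v.2.1)) - 2 ^ (r + 1) * ((c.2.2 : ℕ) / 2 ^ (r + 1))) / 2 ^ r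
        - (d : ℕ) = _
      rw [← hy2, ← hb, ← ha, ← hi, ← hj, hd]
      have : i + j - 2 ^ (r + 1) * a = j + i % 2 ^ (r + 1) := by omega
      rw [this]

/-- disjoint copies of the norm graph have twin-width at most six times the size of the field -/
theorem twinWidth_copies (hg : ∀ u v : ℕ, u < v → v < u + B → g ^ u ≠ g ^ v) (hB : 1 ≤ B)
    (hM : 1 ≤ M) : TwinWidthLE (copies M (WG φ m g 1 B)) (6 * Fintype.card K) := by
  have hne : Nonempty (Fin M × (K × Fin B)) := ⟨(⟨0, hM⟩, 0, ⟨0, hB⟩)⟩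
  have h1 : ∀ r : ℕ, Relation.ReflTransGen
      (Contract (copies M (WG φ m g 1 B)) (6 * Fintype.card K))
      (parts (lab (K := K) B M 0)) (parts (lab (K := K) B M r)) := by
    intro r
    induction r with
    | zero => exact Relation.ReflTransGen.refl
    | succ r ih => exact ih.trans (step φ m g B M hg r)
  have h0 : Function.Injective (lab (K := K) B M 0) := by
    rintro ⟨a, b, c⟩ ⟨a', b', c'⟩ h
    unfold lab at h
    rw [Prod.mk.injEq, Prod.mk.injEq, pow_zero, Nat.div_one, Nat.div_one] at h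
    exact Prod.ext h.1 (Prod.ext h.2.1 (Fin.ext h.2.2))
  have hzero : ∀ v : Fin M × (K × Fin B), lab B M B v = (v.1, v.2.1, 0) := by
    intro v
    unfold lab
    rw [Nat.div_eq_of_lt (lt_of_lt_of_le v.2.2.2 Nat.lt_two_pow_self.le)]
  have h2 : Relation.ReflTransGen (Contract (copies M (WG φ m g 1 B)) (6 * Fintype.card K))
      (parts (lab (K := K) B M B)) (parts (fun v : Fin M × (K × Fin B) => v.1)) := by
    refine coarsen_touch _ _ _ _ ?_ ?_
    · intro u v h
      rw [hzero, hzero, Prod.mk.injEq] at h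
      exact h.1
    · intro c
      refine ⟨(univ : Finset K).image (fun p => (c.1, p, 0)), ?_, ?_⟩
      · refine card_image_le.trans ?_
        rw [card_univ]
        omega
      · rintro y v hy hadj
        refine mem_image.2 ⟨v.2.1, mem_univ _, ?_⟩
        rw [hzero, ← hy, hadj.1]
  have h3 : Relation.ReflTransGen (Contract (copies M (WG φ m g 1 B)) (6 * Fintype.card K))
      (parts (fun v : Fin M × (K × Fin B) => v.1)) (parts (fun _ : Fin M × (K × Fin B) => ())) :=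
    coarsen_free _ _ _ _ (fun _ _ _ => rfl) (fun u v h => h.1)
  exact twinWidthLE_of _ _ _ h0 (((h1 B).trans h2).trans h3)

end

end Pool.Agent.Y422.TZ
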