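import Pool.Agent.Y422.TZ.Copies

/-!
# Graphs of small twin-width without `K_{s,t}` and with many edges
-/

set_option autoImplicit false

namespace Pool.Agent.Y422.TZ

open Finset Pool.Agent.Y422.TW Pool.Agent.Y684.ZL Pool.Agent.W834.NG

open Classical

theorem contract_mono {V : Type} (G : SimpleGraph V) {t t' : ℕ} (h : t ≤ t')
    {P Q : Finset (Finset V)} (hc : Contract G t P Q) : Contract G t' P Q :=
  ⟨hc.1, fun A hA => (hc.2 A hA).trans h⟩

theorem twinWidth_mono {V : Type} [Fintype V] (G : SimpleGraph V) {t t' : ℕ} (h : t ≤ t')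
    (ht : TwinWidthLE G t) : TwinWidthLE G t' :=
  Relation.ReflTransGen.mono (fun _ _ hc => contract_mono G h hc) _ _ ht

theorem edges_ge {V : Type} [Fintype V] (G : SimpleGraph V) (D : ℕ)
    (hD : ∀ v : V, ∃ s : Finset V, D ≤ s.card ∧ ∀ w ∈ s, G.Adj v w) :
    D * Fintype.card V ≤ 2 * Nat.card G.edgeSet := by
  have h0 : Nat.card G.edgeSet = G.edgeFinset.card := by
    rw [Nat.card_eq_fintype_card, SimpleGraph.edgeFinset_card]
  rw [h0, ← SimpleGraph.sum_degrees_eq_twice_card_edges]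
  have h2 : ∀ v : V, D ≤ G.degree v := by
    intro v
    obtain ⟨s, hs, hadj⟩ := hD v
    refine hs.trans ?_
    rw [← SimpleGraph.card_neighborFinset_eq_degree]
    apply Finset.card_le_card
    intro w hw
    rw [SimpleGraph.mem_neighborFinset]
    exact hadj w hw
  calc D * Fintype.card V = ∑ _v : V, D := by simp [mul_comm]
    _ ≤ ∑ v : V, G.degree v := Finset.sum_le_sum fun v _ => h2 v

theorem copies_deg {M : ℕ} {W : Type} (H : SimpleGraph W) (D : ℕ)
    (hD : ∀ v : W, ∃ s : Finset W, D ≤ s.card ∧ ∀ w ∈ s, H.Adj v w) (v : Fin M × W) :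
    ∃ s : Finset (Fin M × W), D ≤ s.card ∧ ∀ w ∈ s, (copies M H).Adj v w := by
  obtain ⟨s, hs, hadj⟩ := hD v.2
  refine ⟨s.map ⟨fun w => (v.1, w), fun a b h => (Prod.mk.inj h).2⟩, by rwa [card_map], ?_⟩
  intro w hw
  obtain ⟨u, hu, rfl⟩ := mem_map.1 hw
  exact ⟨rfl, hadj u hu⟩

/-- disjoint copies of norm graphs -/
theorem lower_graph (m l n : ℕ) (hm : 1 ≤ m) (hl : 1 ≤ l) (hn : 2 ^ (m * l) * (2 ^ l - 1) ≤ n) :
    ∃ (V : Type) (_ : Fintype V) (G : SimpleGraph V), Fintype.card V ≤ n ∧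
      TwinWidthLE G (6 * 2 ^ (m * l)) ∧ NoK G (m + 1) (m.factorial + 1) ∧
      (2 ^ (m * l) - 2) * n ≤ 4 * Nat.card G.edgeSet := by
  obtain ⟨K, _, _, _, φ, g, R, hK, hR, hg, hN⟩ := exists_field m l hm hl
  have hB : 1 ≤ 2 ^ l - 1 := by
    have : 2 ^ 1 ≤ 2 ^ l := Nat.pow_le_pow_right (by norm_num) hl
    omega
  obtain ⟨B, hBdef⟩ : ∃ B, B = 2 ^ l - 1 := ⟨_, rfl⟩
  rw [← hBdef] at hB hg hR hn
  obtain ⟨N, hNdef⟩ : ∃ N, N = 2 ^ (m * l) * B := ⟨_, rfl⟩
  rw [← hNdef] at hn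
  have hNpos : 0 < N := by rw [hNdef]; positivity
  obtain ⟨M, hMdef⟩ : ∃ M, M = n / N := ⟨_, rfl⟩
  have hM : 1 ≤ M := by rw [hMdef]; exact (Nat.one_le_div_iff hNpos).2 hn
  have hcard : Fintype.card (Fin M × (K × Fin B)) = M * N := by
    rw [Fintype.card_prod, Fintype.card_prod, hK, Fintype.card_fin, Fintype.card_fin, hNdef]
  have hg' : ∀ u v : ℕ, u < v → v < u + 1 * B → g ^ u ≠ g ^ v := fun u v h1 h2 =>
    hg u v h1 (by omega)
  refine ⟨Fin M × (K × Fin B), inferInstance, copies M (WG φ m g 1 B), ?_, ?_, ?_, ?_⟩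
  · rw [hcard, hMdef]
    exact Nat.div_mul_le_self n N
  · have := twinWidth_copies φ m g B M hg hB hM
    rwa [hK] at this
  · apply copies_noK (Nat.succ_pos _) (Nat.succ_pos _)
    have := WG_noK φ m g 1 B hm le_rfl hg'
    have e : m.factorial * (1 ^ (m + 1) - (1 - 1) ^ (m + 1)) + 1 = m.factorial + 1 := by simp
    rwa [e] at this
  · have h1 := edges_ge (copies M (WG φ m g 1 B)) (1 * B * R - 1)
      (copies_deg _ _ (fun v => WG_deg φ m g 1 B R hg' hB hN v))
    rw [hcard] at h1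
    have h2 : 1 * B * R - 1 = 2 ^ (m * l) - 2 := by
      have : 1 * B * R = R * B := by ring
      omega
    rw [h2] at h1
    have h3 : n ≤ 2 * (M * N) := by
      have h4 : n < (M + 1) * N := by
        rw [hMdef]
        exact Nat.lt_mul_of_div_lt (Nat.lt_succ_self _) hNpos
      have h5 : 1 * N ≤ M * N := Nat.mul_le_mul_right _ hM
      have h6 : (M + 1) * N = M * N + N := by ring
      omega
    calc (2 ^ (m * l) - 2) * n ≤ (2 ^ (m * l) - 2) * (2 * (M * N)) := Nat.mul_le_mul_left _ h3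
      _ = 2 * ((2 ^ (m * l) - 2) * (M * N)) := by ring
      _ ≤ 4 * Nat.card (copies M (WG φ m g 1 B)).edgeSet := by omega

/-- disjoint edges -/
theorem matching (n : ℕ) (hn : 2 ≤ n) :
    ∃ (V : Type) (_ : Fintype V) (G : SimpleGraph V), Fintype.card V ≤ n ∧
      TwinWidthLE G 0 ∧ NoK G 2 2 ∧ n ≤ 4 * Nat.card G.edgeSet := by
  obtain ⟨M, hM⟩ : ∃ M, M = n / 2 := ⟨_, rfl⟩
  have hM1 : 1 ≤ M := by omega
  have hne : Nonempty (Fin M × Fin 2) := ⟨(⟨0, hM1⟩, 0)⟩
  have htwo : ∀ a b c : Fin 2, a ≠ b → c = a ∨ c = b := by decide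
  refine ⟨Fin M × Fin 2, inferInstance, copies M ⊤, ?_, ?_, ?_, ?_⟩
  · rw [Fintype.card_prod, Fintype.card_fin, Fintype.card_fin]
    omega
  · apply twinWidthLE_of _ _ (fun v => v) (fun _ _ h => h)
    refine Relation.ReflTransGen.trans (b := parts (fun v : Fin M × Fin 2 => v.1)) ?_
      (coarsen_free _ _ _ _ (fun _ _ _ => rfl) (fun u v h => h.1))
    refine coarsen_homog _ _ _ _ (fun u v h => by rw [h]) ?_
    intro f' _ h2 c b hfne
    by_contra hh
    have h3 : ¬ ∀ y ∈ cls f' c, ∀ x ∈ cls f' b, ¬ (copies M (⊤ : SimpleGraph (Fin 2))).Adj y x :=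
      fun h => hh (Or.inr h)
    push Not at h3
    obtain ⟨y, hy, x, hx, hyx⟩ := h3
    rw [mem_cls] at hy hx
    have hxy1 : y.1 = x.1 := hyx.1
    have hxy2 : y.2 ≠ x.2 := hyx.2
    apply hh
    left
    intro y' hy' x' hx'
    rw [mem_cls] at hy' hx'
    have a1 : y'.1 = y.1 := h2 _ _ (hy'.trans hy.symm)
    have a2 : x'.1 = x.1 := h2 _ _ (hx'.trans hx.symm)
    refine ⟨a1.trans (hxy1.trans a2.symm), ?_⟩
    show y'.2 ≠ x'.2
    have b1 : y' = y := by
      rcases htwo _ _ y'.2 hxy2 with h | h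
      · exact Prod.ext a1 h
      · exfalso
        have : y' = x := Prod.ext (a1.trans hxy1) h
        rw [this] at hy'
        exact hfne (hy'.symm.trans hx)
    have b2 : x' = x := by
      rcases htwo _ _ x'.2 hxy2 with h | h
      · exfalso
        have : x' = y := Prod.ext (a2.trans hxy1.symm) h
        rw [this] at hx'
        exact hfne (hy.symm.trans hx')
      · exact Prod.ext a2 h
    rw [b1, b2]
    exact hxy2
  · rintro ⟨x, y, hx, _, hadj⟩
    have h1 := hadj 0 0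
    have h2 := hadj 1 0
    have h3 : (x 0).1 = (x 1).1 := h1.1.trans h2.1.symm
    have h4 : (x 0).2 = (x 1).2 := by
      have a1 : (x 0).2 ≠ (y 0).2 := h1.2
      have a2 : (x 1).2 ≠ (y 0).2 := h2.2
      rcases htwo _ _ (x 1).2 a1 with h | h
      · exact h.symm
      · exact absurd h a2
    have h5 : (0 : Fin 2) = 1 := hx (Prod.ext h3 h4)
    exact absurd h5 (by decide)
  · have h1 := edges_ge (copies M (⊤ : SimpleGraph (Fin 2))) 1
      (copies_deg _ _ (fun v => ⟨univ.erase v, by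
        rw [card_erase_of_mem (mem_univ _), card_univ, Fintype.card_fin], fun w hw => by
        rw [SimpleGraph.top_adj]
        exact (ne_of_mem_erase hw).symm⟩))
    rw [Fintype.card_prod, Fintype.card_fin, Fintype.card_fin] at h1
    omega

end Pool.Agent.Y422.TZ
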